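import Pool.Agent.Helper85.BHW.Defs

set_option autoImplicit false
open scoped Pointwise
open MeasureTheory Module

namespace Pool.Agent.Helper85.BHW

/-- MODULE C1 -/
theorem packing {n : ℕ} (K : Set (Fin n → ℝ)) (hc : Convex ℝ K) (hK : IsClosed K) (δ : ℝ)
    (hδ : 0 < δ) (U : Finset (Fin n → ℤ)) (hU : ∀ u ∈ U, cz u ∈ K) :
    (U.card : ENNReal) * volume (per n (δ • K)) ≤ volume ((1 + δ) • K) := by
  classical
  set A : Set (Fin n → ℝ) := (1 + δ) • K with hA
  have hAm : MeasurableSet A := (hK.smul_of_ne_zero (by positivity)).measurableSet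
  let P : Set (Fin n → ℝ) := {x | ∀ j, x j ∈ Set.Ico (0:ℝ) 1}
  have hPm : MeasurableSet P := by
    have : P = Set.pi Set.univ (fun _ => Set.Ico (0:ℝ) 1) := by
      ext x; simp [P]
    rw [this]
    exact MeasurableSet.univ_pi fun _ => measurableSet_Ico
  let S : (Fin n → ℤ) → Set (Fin n → ℝ) := fun z => {x | x ∈ P ∧ x + cz z ∈ A}
  let T : (Fin n → ℤ) → Set (Fin n → ℝ) := fun z => {y | y ∈ A ∧ y + (-cz z) ∈ P}
  have hSm : ∀ z, MeasurableSet (S z) := fun z =>
    hPm.inter ((measurable_add_const (cz z)) hAm)
  have hTS : ∀ z, T z = (fun y => y + (-cz z)) ⁻¹' (S z) := by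
    intro z
    ext y
    simp only [T, S, Set.mem_ofPred_eq, Set.mem_preimage, neg_add_cancel_right]
    exact and_comm
  have hTm : ∀ z, MeasurableSet (T z) := by
    intro z
    rw [hTS]
    exact (measurable_add_const (-cz z)) (hSm z)
  have hvol : ∀ z, volume (T z) = volume (S z) := by
    intro z
    rw [hTS, measure_preimage_add_right]
  have hdisj : Pairwise (Function.onFun Disjoint T) := by
    intro z w hzw
    rw [Function.onFun, Set.disjoint_left]
    rintro y ⟨-, h1⟩ ⟨-, h2⟩
    apply hzw
    funext j
    have a1 := h1 j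
    have a2 := h2 j
    simp only [Pi.add_apply, Pi.neg_apply, cz, Set.mem_Ico] at a1 a2
    have b1 : (z j : ℝ) < w j + 1 := by linarith [a1.1, a2.2]
    have b2 : (w j : ℝ) < z j + 1 := by linarith [a2.1, a1.2]
    have c1 : z j < w j + 1 := by exact_mod_cast b1
    have c2 : w j < z j + 1 := by exact_mod_cast b2
    omega
  have hsum : ∑' z, volume (S z) ≤ volume A := by
    calc ∑' z, volume (S z) = ∑' z, volume (T z) := by simp_rw [hvol]
      _ = volume (⋃ z, T z) := (measure_iUnion hdisj hTm).symm
      _ ≤ volume A := measure_mono (Set.iUnion_subset fun z y hy => hy.1)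
  let f : (Fin n → ℝ) → ENNReal := fun x => ∑' z, (S z).indicator (fun _ => (1 : ENNReal)) x
  have hfz : ∀ z, Measurable ((S z).indicator (fun _ : Fin n → ℝ => (1 : ENNReal))) := fun z =>
    measurable_const.indicator (hSm z)
  have hf : Measurable f := Measurable.tsum hfz
  have hint : ∫⁻ x, f x = ∑' z, volume (S z) := by
    simp only [f]
    rw [lintegral_tsum (fun z => (hfz z).aemeasurable)]
    refine tsum_congr fun z => ?_
    rw [lintegral_indicator (hSm z)]
    simp
  have hper : per n (δ • K) ⊆ {x | (U.card : ENNReal) ≤ f x} := by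
    rintro x ⟨hx, z0, -, hz0⟩
    have hxP : x ∈ P := fun j => hx j j.2
    have hmem : ∀ u ∈ U, x ∈ S (z0 + u) := by
      intro u hu
      refine ⟨hxP, ?_⟩
      obtain ⟨k, hk, hk2⟩ := hz0
      have h1 : x + cz (z0 + u) = δ • k + cz u := by
        have : cz (z0 + u) = cz z0 + cz u := by
          funext j; simp [cz]
        rw [this, ← add_assoc, ← hk2]
      have hpos : (0:ℝ) < 1 + δ := by positivity
      refine ⟨(1 + δ)⁻¹ • (δ • k + cz u), ?_, ?_⟩
      · have := hc hk (hU u hu) (a := δ / (1 + δ)) (b := 1 / (1 + δ)) (by positivity)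
          (by positivity) (by field_simp; ring)
        convert this using 1
        rw [smul_add, smul_smul]
        congr 1
        · congr 1
          field_simp
        · congr 1
          rw [one_div]
      · simp only []
        rw [smul_smul, mul_inv_cancel₀ hpos.ne', one_smul, h1]
    simp only [Set.mem_ofPred_eq]
    have hinj : Function.Injective (fun u : Fin n → ℤ => z0 + u) := add_right_injective z0
    calc (U.card : ENNReal) = ∑ z ∈ U.image (fun u => z0 + u),
          (S z).indicator (fun _ => (1 : ENNReal)) x := by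
          rw [Finset.sum_image (fun a _ b _ h => hinj h)]
          rw [Finset.sum_congr rfl (fun u hu => Set.indicator_of_mem (hmem u hu) _)]
          simp
      _ ≤ f x := ENNReal.sum_le_tsum _
  calc (U.card : ENNReal) * volume (per n (δ • K))
      ≤ (U.card : ENNReal) * volume {x | (U.card : ENNReal) ≤ f x} := by
        gcongr
    _ ≤ ∫⁻ x, f x := mul_meas_ge_le_lintegral hf _
    _ ≤ volume A := by rw [hint]; exact hsum

end Pool.Agent.Helper85.BHW
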